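import Mathlib

set_option autoImplicit false

namespace Pool.Agent.Results.MP_0b5955_al.RadicalNotCE

universe u

/-- A ring `R`, with or without identity, is centrally essential if it is commutative or for every
`a ∈ R \ Z(R)` there are nonzero central elements `x`, `y` with `a x = y`. -/
def CentrallyEssential (R : Type u) [NonUnitalRing R] : Prop :=
  (∀ a b : R, a * b = b * a) ∨
    ∀ a : R, (∃ b, a * b ≠ b * a) →
      ∃ x y : R, x ≠ 0 ∧ y ≠ 0 ∧ (∀ b, x * b = b * x) ∧ (∀ b, y * b = b * y) ∧ a * x = y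

/-- The Jacobson radical of a ring with identity (the intersection of all maximal left ideals), as a
ring without identity. -/
def radical (R : Type u) [Ring R] : NonUnitalSubring R where
  carrier := {x | x ∈ Ideal.jacobson (⊥ : Ideal R)}
  add_mem' := by
    intro a b ha hb
    rw [Set.mem_ofPred_eq] at *
    exact Submodule.add_mem _ ha hb
  zero_mem' := by
    rw [Set.mem_ofPred_eq]
    exact Submodule.zero_mem _
  neg_mem' := by
    intro a ha
    rw [Set.mem_ofPred_eq] at *
    exact Submodule.neg_mem _ ha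
  mul_mem' := by
    intro a b _ hb
    rw [Set.mem_ofPred_eq] at *
    exact Ideal.mul_mem_left _ a hb

theorem mem_radical {R : Type u} [Ring R] (x : R) :
    x ∈ radical R ↔ x ∈ Ideal.jacobson (⊥ : Ideal R) := by
  unfold radical
  exact Set.mem_ofPred

/-- The underlying group `ℤ ⊕ ℤ a ⊕ ℤ b ⊕ (ℤ/2) u` of the counterexample. -/
@[ext] structure Rg : Type where
  /-- coefficient of `1` -/
  f : ℤ
  /-- coefficient of `a` -/
  p : ℤ
  /-- coefficient of `b` -/
  q : ℤ
  /-- coefficient of `u` -/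
  r : ZMod 2

namespace Rg

instance : Zero Rg := ⟨⟨0, 0, 0, 0⟩⟩
instance : One Rg := ⟨⟨1, 0, 0, 0⟩⟩
instance : Add Rg := ⟨fun s t => ⟨s.f + t.f, s.p + t.p, s.q + t.q, s.r + t.r⟩⟩
instance : Neg Rg := ⟨fun s => ⟨-s.f, -s.p, -s.q, -s.r⟩⟩
/-- `a b = u` and all other products of two of the elements `a, b, u` are zero. -/
instance : Mul Rg := ⟨fun s t => ⟨s.f * t.f, s.f * t.p + s.p * t.f, s.f * t.q + s.q * t.f,
  s.f * t.r + s.r * t.f + s.p * t.q⟩⟩

@[simp] theorem zf : (0 : Rg).f = 0 := rfl
@[simp] theorem zp : (0 : Rg).p = 0 := rfl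
@[simp] theorem zq : (0 : Rg).q = 0 := rfl
@[simp] theorem zr : (0 : Rg).r = 0 := rfl
@[simp] theorem of : (1 : Rg).f = 1 := rfl
@[simp] theorem op : (1 : Rg).p = 0 := rfl
@[simp] theorem oq : (1 : Rg).q = 0 := rfl
@[simp] theorem or : (1 : Rg).r = 0 := rfl
@[simp] theorem af (s t : Rg) : (s + t).f = s.f + t.f := rfl
@[simp] theorem ap (s t : Rg) : (s + t).p = s.p + t.p := rfl
@[simp] theorem aq (s t : Rg) : (s + t).q = s.q + t.q := rfl
@[simp] theorem ar (s t : Rg) : (s + t).r = s.r + t.r := rfl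
@[simp] theorem nf (s : Rg) : (-s).f = -s.f := rfl
@[simp] theorem np (s : Rg) : (-s).p = -s.p := rfl
@[simp] theorem nq (s : Rg) : (-s).q = -s.q := rfl
@[simp] theorem nr (s : Rg) : (-s).r = -s.r := rfl
@[simp] theorem mf (s t : Rg) : (s * t).f = s.f * t.f := rfl
@[simp] theorem mp (s t : Rg) : (s * t).p = s.f * t.p + s.p * t.f := rfl
@[simp] theorem mq (s t : Rg) : (s * t).q = s.f * t.q + s.q * t.f := rfl
@[simp] theorem mr (s t : Rg) : (s * t).r = s.f * t.r + s.r * t.f + s.p * t.q := rfl

instance : Ring Rg where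
  add_assoc a b c := by ext <;> simp [add_assoc]
  zero_add a := by ext <;> simp
  add_zero a := by ext <;> simp
  add_comm a b := by ext <;> simp [add_comm]
  neg_add_cancel a := by ext <;> simp [CharTwo.add_self_eq_zero]
  mul_assoc a b c := by ext <;> simp <;> ring
  one_mul a := by ext <;> simp
  mul_one a := by ext <;> simp
  zero_mul a := by ext <;> simp
  mul_zero a := by ext <;> simp
  left_distrib a b c := by ext <;> simp <;> ring
  right_distrib a b c := by ext <;> simp <;> ring
  nsmul := nsmulRec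
  zsmul := zsmulRec

end Rg

open Rg

theorem mem_iff (x : Rg) : x ∈ Ideal.jacobson (⊥ : Ideal Rg) ↔ x.f = 0 := by
  rw [Ideal.mem_jacobson_iff]
  constructor
  · intro h
    obtain ⟨z, hz⟩ := h ⟨x.f, 0, 0, 0⟩
    rw [Ideal.mem_bot] at hz
    have h1 := congrArg Rg.f hz
    simp only [sub_eq_add_neg, af, mf, nf, of, zf] at h1
    have h2 : z.f * (x.f * x.f + 1) = 1 := by linarith
    have h3 : (x.f * x.f + 1) = 1 ∨ (x.f * x.f + 1) = -1 := by
      rw [mul_comm] at h2
      exact Int.eq_one_or_neg_one_of_mul_eq_one h2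
    rcases h3 with h3 | h3
    · nlinarith
    · nlinarith
  · intro h y
    refine ⟨1 - y * x + y * x * (y * x), ?_⟩
    rw [Ideal.mem_bot]
    have h2 : (2 : ZMod 2) = 0 := rfl
    ext <;> simp [sub_eq_add_neg, h]
    linear_combination (y.f * x.r + y.f ^ 2 * x.p * x.q + y.p * x.q) * h2

theorem two_eq : (2 : Rg) = 1 + 1 := one_add_one_eq_two.symm
theorem two_f : (2 : Rg).f = 2 := by
  rw [two_eq]; rfl
theorem two_p : (2 : Rg).p = 0 := by
  rw [two_eq]; rfl
theorem two_q : (2 : Rg).q = 0 := by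
  rw [two_eq]; rfl
theorem two_r : (2 : Rg).r = 0 := by
  rw [two_eq]; rfl

theorem central_of {y : Rg} (hp : (y.p : ZMod 2) = 0) (hq : (y.q : ZMod 2) = 0) (b : Rg) :
    y * b = b * y := by
  ext <;> simp [hp, hq] <;> ring

theorem cE : CentrallyEssential Rg := by
  have h2 : (2 : ZMod 2) = 0 := rfl
  refine Or.inr fun a ha => ⟨2, a * 2, ?_, ?_, ?_, ?_, rfl⟩
  · intro h
    have := congrArg Rg.f h
    rw [two_f] at this
    simp at this
  · intro h
    obtain ⟨b, hb⟩ := ha
    apply hb
    have h3 := congrArg Rg.p h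
    have h4 := congrArg Rg.q h
    simp only [mp, mq, two_f, two_p, two_q, zp, zq] at h3 h4
    exact central_of (by simp [show a.p = 0 by omega]) (by simp [show a.q = 0 by omega]) b
  · exact central_of (by simp [two_p]) (by simp [two_q])
  · refine central_of ?_ ?_
    · simp [two_f, two_p, h2]
    · simp [two_f, two_q, h2]

theorem not_cE : ¬ CentrallyEssential (radical Rg) := by
  have hmem : ∀ x : Rg, x.f = 0 → x ∈ radical Rg := fun x hx => (mem_radical x).2 ((mem_iff x).2 hx)
  let a : radical Rg := ⟨⟨0, 1, 0, 0⟩, hmem _ rfl⟩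
  let b : radical Rg := ⟨⟨0, 0, 1, 0⟩, hmem _ rfl⟩
  rintro (h | h)
  · have h1 := congrArg (fun x : radical Rg => (x : Rg).r) (h a b)
    simp [a, b] at h1
  · obtain ⟨x, y, hx, hy, hxc, hyc, hxy⟩ := h a ⟨b, by
      intro h1
      have h1 := congrArg (fun x : radical Rg => (x : Rg).r) h1
      simp [a, b] at h1⟩
    have h1 := congrArg (fun x : radical Rg => (x : Rg).r) (hxc a)
    have h0 : (x : Rg).f = 0 := (mem_iff (x : Rg)).1 ((mem_radical _).1 x.2)
    simp [a, h0] at h1
    apply hy
    rw [← hxy]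
    apply Subtype.ext
    ext <;> simp [a, h0, ← h1]

/-- There is a centrally essential ring with identity whose Jacobson radical is not centrally
essential. -/
theorem result : ∃ (R : Type) (_ : Ring R),
    CentrallyEssential R ∧ ¬ CentrallyEssential (radical R) :=
  ⟨Rg, inferInstance, cE, not_cE⟩

end Pool.Agent.Results.MP_0b5955_al.RadicalNotCE
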